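import Mathlib
import Pool.Agent.Helper33.CycSharp

set_option autoImplicit false

namespace Pool.Agent.Results.MP_2fc3d5_co.SqrtThree

open Filter Topology

/-- The cycles of `G` (subgraphs isomorphic to the cycle graph on `k` vertices, `3 ≤ k`) have
pairwise distinct lengths: for each `k` there is at most one cycle of length `k`. -/
def DistinctCycleLengths {V : Type} (G : SimpleGraph V) : Prop :=
  ∀ k : ℕ, 3 ≤ k → ∀ H K : G.Subgraph,
    Nonempty (H.coe ≃g SimpleGraph.cycleGraph k) →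
    Nonempty (K.coe ≃g SimpleGraph.cycleGraph k) → H = K

/-- The numbers of edges of the graphs on `n` vertices whose cycles have pairwise distinct
lengths. -/
def edgeCounts (n : ℕ) : Set ℕ :=
  {m : ℕ | ∃ G : SimpleGraph (Fin n), DistinctCycleLengths G ∧ G.edgeSet.ncard = m}

/-- The largest number of edges of a graph on `n` vertices whose cycles have pairwise distinct
lengths. -/
noncomputable def f (n : ℕ) : ℕ := sSup (edgeCounts n)

theorem isGreatest_f (n : ℕ) : IsGreatest (edgeCounts n) (f n) := by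
  have hb : BddAbove (edgeCounts n) := by
    refine ⟨(Set.univ : Set (Sym2 (Fin n))).ncard, ?_⟩
    rintro m ⟨G, _, rfl⟩
    exact Set.ncard_le_ncard (Set.subset_univ _) Set.finite_univ
  refine ⟨Nat.sSup_mem ?_ hb, fun m hm => le_csSup hb hm⟩
  refine ⟨_, ⊥, ?_, rfl⟩
  intro k hk H K hH _
  exfalso
  obtain ⟨e⟩ := hH
  obtain ⟨j, rfl⟩ : ∃ j, k = j + 3 := ⟨k - 3, by omega⟩
  have h1 : (SimpleGraph.cycleGraph (j + 3)).Adj 0 1 := by
    rw [SimpleGraph.cycleGraph_adj]
    right; simp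
  have h2 := e.symm.map_rel_iff.mpr h1
  have h3 := H.adj_sub (SimpleGraph.Subgraph.coe_adj _ _ _ ▸ h2)
  exact h3

theorem card_edges_cycleGraph (k : ℕ) (hk : 3 ≤ k) :
    (SimpleGraph.cycleGraph k).edgeSet.ncard = k := by
  classical
  obtain ⟨j, rfl⟩ : ∃ j, k = j + 3 := ⟨k - 3, by omega⟩
  have h := (SimpleGraph.cycleGraph (j + 3)).sum_degrees_eq_twice_card_edges
  simp only [SimpleGraph.cycleGraph_degree_three_le, Finset.sum_const, Finset.card_univ,
    Fintype.card_fin, smul_eq_mul] at h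
  have h2 : (SimpleGraph.cycleGraph (j + 3)).edgeSet.ncard
      = (SimpleGraph.cycleGraph (j + 3)).edgeFinset.card := by
    rw [← SimpleGraph.coe_edgeFinset, Set.ncard_coe_finset]
  omega

/-- a closed walk that is a cycle spans a subgraph isomorphic to a cycle graph -/
theorem walk_cycle {V : Type} (G : SimpleGraph V) (u : V)
    (p : G.Walk u u) (hp : p.IsCycle) :
    ∃ H : G.Subgraph, Nonempty (H.coe ≃g SimpleGraph.cycleGraph p.length) ∧
      H.edgeSet = {e | e ∈ p.edges} := by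
  classical
  set G' : SimpleGraph V := SimpleGraph.fromEdgeSet {e | e ∈ p.edges} with hG'
  have hE' : G'.edgeSet = {e | e ∈ p.edges} := by
    rw [hG', SimpleGraph.edgeSet_fromEdgeSet]
    ext e
    simp only [Set.mem_sdiff, Set.mem_ofPred_eq, and_iff_left_iff_imp]
    intro he
    exact G.not_isDiag_of_mem_edgeSet (p.edges_subset_edgeSet he)
  have hle : G' ≤ G := by
    rw [← SimpleGraph.edgeSet_subset_edgeSet, hE']
    intro e he
    exact p.edges_subset_edgeSet he
  have hk : 2 < p.length := hp.three_le_length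
  have hq : ∀ e ∈ p.edges, e ∈ G'.edgeSet := by
    intro e he
    rw [hE']; exact he
  have hcont : (SimpleGraph.cycleGraph p.length).IsContained G' := by
    rw [SimpleGraph.cycleGraph_isContained_iff hk]
    exact ⟨u, p.transfer G' hq, hp.transfer hq, by simp⟩
  obtain ⟨c⟩ := hcont
  set c' : SimpleGraph.Copy (SimpleGraph.cycleGraph p.length) G :=
    (SimpleGraph.Copy.ofLE G' G hle).comp c with hc'
  refine ⟨c'.toSubgraph, ⟨c'.isoToSubgraph.symm⟩, ?_⟩
  have hinj : Function.Injective c := c.injective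
  have himg : c'.toSubgraph.edgeSet
      = Sym2.map c '' (SimpleGraph.cycleGraph p.length).edgeSet := by
    ext e
    simp only [SimpleGraph.Copy.toSubgraph, SimpleGraph.Subgraph.edgeSet_map,
      SimpleGraph.Subgraph.edgeSet_top, Set.mem_image]
    rfl
  have hsub : c'.toSubgraph.edgeSet ⊆ {e | e ∈ p.edges} := by
    rw [himg, ← hE']
    rintro _ ⟨e, he, rfl⟩
    exact c.toHom.map_mem_edgeSet he
  have hfin : ({e | e ∈ p.edges} : Set (Sym2 V)).Finite := List.finite_toSet _
  refine Set.eq_of_subset_of_ncard_le hsub ?_ hfin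
  rw [himg, Set.ncard_image_of_injective _ (Sym2.map.injective hinj),
    card_edges_cycleGraph _ hk]
  have h1 : ({e | e ∈ p.edges} : Set (Sym2 V)) = ((p.edges.toFinset : Finset (Sym2 V)) : Set _) := by
    ext e; simp
  rw [h1, Set.ncard_coe_finset]
  exact (List.toFinset_card_le _).trans (le_of_eq p.length_edges)

theorem walk_form {V : Type} (G : SimpleGraph V) (hG : DistinctCycleLengths G) :
    ∀ (u v : V) (p : G.Walk u u) (q : G.Walk v v),
      p.IsCycle → q.IsCycle → p.length = q.length → {e | e ∈ p.edges} = {e | e ∈ q.edges} := by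
  intro u v p q hp hq hpq
  obtain ⟨H, hH, hHe⟩ := walk_cycle G u p hp
  obtain ⟨K, hK, hKe⟩ := walk_cycle G v q hq
  rw [← hpq] at hK
  have h := hG p.length hp.three_le_length H K hH hK
  rw [← hHe, ← hKe, h]

/-- optimisation of the parameter -/
theorem optimise (c q K m : ℝ) (hc : 0 < c) (hq : 0 < q) (hm : c / q ^ 2 ≤ m)
    (hb : ∀ p : ℝ, 0 < p → p ≤ q → K ≤ p * m + c / p) : K ^ 2 ≤ 4 * c * m ∨ K ≤ 0 := by
  have hm0 : 0 < m := lt_of_lt_of_le (by positivity) hm
  rcases le_or_gt K 0 with h | h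
  · exact Or.inr h
  left
  set s : ℝ := Real.sqrt (4 * c * m) with hs
  have hss : s * s = 4 * c * m := Real.mul_self_sqrt (by positivity)
  have hs0 : 0 < s := Real.sqrt_pos.mpr (by positivity)
  have hp1 : s / (2 * m) ≤ q := by
    rw [div_le_iff₀ (by positivity)]
    apply Real.sqrt_le_iff.mpr
    refine ⟨by positivity, ?_⟩
    rw [div_le_iff₀ (by positivity)] at hm
    nlinarith
  have h1 := hb (s / (2 * m)) (by positivity) hp1
  have e1 : s / (2 * m) * m = s / 2 := by field_simp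
  have e2 : c / (s / (2 * m)) = s / 2 := by
    rw [div_div_eq_mul_div, div_eq_div_iff hs0.ne' two_ne_zero]
    nlinarith
  rw [e1, e2] at h1
  have h2 : K ≤ s := by linarith
  calc K ^ 2 ≤ s ^ 2 := pow_le_pow_left₀ h.le h2 2
    _ = 4 * c * m := by rw [sq, hss]

theorem excess_bound (c K n : ℝ) (hc : c ≤ 3 / 4) (_hn : 0 ≤ n) (_hc0 : 0 < c)
    (h : K ^ 2 ≤ 4 * c * (n + K) ∨ K ≤ 0) : K ≤ Real.sqrt (4 * c * n + 9 / 4) + 3 / 2 := by
  have hs := Real.sqrt_nonneg (4 * c * n + 9 / 4)
  rcases le_or_gt K 0 with h0 | h0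
  · linarith
  rcases h with h | h
  · have h6 : K - 3 / 2 ≤ Real.sqrt (4 * c * n + 9 / 4) := by
      apply Real.le_sqrt_of_sq_le
      nlinarith
    linarith
  · linarith

theorem f_bound (n : ℕ) (hn : 208 ≤ n) :
    (f n : ℝ) ≤ n + Real.sqrt (3 * n + 9 / 4) + 3 / 2 := by
  obtain ⟨G, hG, hGm⟩ := (isGreatest_f n).1
  have hn0 : (0 : ℝ) ≤ n := by positivity
  have h : (f n : ℝ) - n ≤ Real.sqrt (4 * (3 / 4) * n + 9 / 4) + 3 / 2 := by
    apply excess_bound _ _ _ le_rfl hn0 (by norm_num)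
    rcases Nat.lt_or_ge n (f n) with h | h
    · have h1 : 209 ≤ f n := by omega
      have h2 : (209 : ℝ) ≤ f n := by exact_mod_cast h1
      have h3 := optimise (3 / 4) (3 / 50) ((f n : ℝ) - n) (f n) (by norm_num) (by norm_num)
        (by norm_num; linarith) (fun p hp hp' => by
          have := Pool.Agent.Helper33.Cyc.graph_bound G (walk_form G hG) p hp hp'
          rw [hGm, Fintype.card_fin] at this
          exact this)
      simpa using h3
    · right
      have h3 : (f n : ℝ) ≤ n := by exact_mod_cast h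
      linarith
  have e : (4 * (3 / 4) * (n : ℝ) + 9 / 4) = 3 * n + 9 / 4 := by ring
  rw [e] at h
  linarith

theorem f_bound_sharp (n : ℕ) (hn : 736000 ≤ n) :
    (f n : ℝ) ≤ n + Real.sqrt (2944 / 1000 * n + 9 / 4) + 3 / 2 := by
  obtain ⟨G, hG, hGm⟩ := (isGreatest_f n).1
  have hn0 : (0 : ℝ) ≤ n := by positivity
  have h : (f n : ℝ) - n ≤ Real.sqrt (4 * (736 / 1000) * n + 9 / 4) + 3 / 2 := by
    apply excess_bound _ _ _ (by norm_num) hn0 (by norm_num)
    rcases Nat.lt_or_ge n (f n) with h | h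
    · have h1 : 736000 ≤ f n := by omega
      have h2 : (736000 : ℝ) ≤ f n := by exact_mod_cast h1
      have h3 := optimise (736 / 1000) (1 / 1000) ((f n : ℝ) - n) (f n) (by norm_num) (by norm_num)
        (by norm_num; linarith) (fun p hp hp' => by
          have := Pool.Agent.Helper33.Cyc.graph_bound_sharp G (walk_form G hG) p hp hp'
          rw [hGm, Fintype.card_fin] at this
          exact this)
      simpa using h3
    · right
      have h3 : (f n : ℝ) ≤ n := by exact_mod_cast h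
      linarith
  have e : (4 * (736 / 1000) * (n : ℝ) + 9 / 4) = 2944 / 1000 * n + 9 / 4 := by ring
  rw [e] at h
  linarith

theorem tendsto_aux :
    Tendsto (fun n : ℕ => (Real.sqrt (2944 / 1000 * n + 9 / 4) + 3 / 2) / Real.sqrt (n : ℝ)) atTop
      (𝓝 (Real.sqrt (2944 / 1000))) := by
  have hn : Tendsto (fun n : ℕ => (n : ℝ)) atTop atTop := tendsto_natCast_atTop_atTop
  have h1 : Tendsto (fun n : ℕ => Real.sqrt (2944 / 1000 + 9 / 4 / (n : ℝ))) atTop
      (𝓝 (Real.sqrt (2944 / 1000))) := by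
    have h2 : Tendsto (fun n : ℕ => 2944 / 1000 + 9 / 4 / (n : ℝ)) atTop (𝓝 (2944 / 1000 + 0)) :=
      tendsto_const_nhds.add (hn.const_div_atTop (9 / 4))
    rw [add_zero] at h2
    exact (Real.continuous_sqrt.tendsto _).comp h2
  have h3 : Tendsto (fun n : ℕ => 3 / 2 / Real.sqrt (n : ℝ)) atTop (𝓝 0) :=
    (Real.tendsto_sqrt_atTop.comp hn).const_div_atTop (3 / 2)
  have h4 := h1.add h3
  rw [add_zero] at h4
  refine h4.congr' ?_
  filter_upwards [eventually_gt_atTop 0] with n hn0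
  have hn1 : (0 : ℝ) < n := by exact_mod_cast hn0
  rw [add_div]
  congr 1
  rw [← Real.sqrt_div' _ hn1.le]
  congr 1
  field_simp

/-- `f n ≤ n + √(3n + 9/4) + 3/2` for all `n ≥ 208` and `f n ≤ n + √(2.944 n + 9/4) + 3/2` for all
`n ≥ 736000`; the lower limit of `(f n - n) / √n` is at most `√3`, even the upper limit is at most
`1.716`, which is smaller than `√3`. -/
theorem result :
    (∀ n : ℕ, IsGreatest (edgeCounts n) (f n)) ∧
    (∀ n : ℕ, 208 ≤ n → (f n : ℝ) ≤ n + Real.sqrt (3 * n + 9 / 4) + 3 / 2) ∧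
    (∀ n : ℕ, 736000 ≤ n → (f n : ℝ) ≤ n + Real.sqrt (2944 / 1000 * n + 9 / 4) + 3 / 2) ∧
    liminf (fun n : ℕ => ((((f n : ℝ) - n) / Real.sqrt n : ℝ) : EReal)) atTop
      ≤ ((Real.sqrt 3 : ℝ) : EReal) ∧
    limsup (fun n : ℕ => ((((f n : ℝ) - n) / Real.sqrt n : ℝ) : EReal)) atTop
      ≤ ((1716 / 1000 : ℝ) : EReal) ∧
    (1716 / 1000 : ℝ) < Real.sqrt 3 := by
  have hlt : (1716 / 1000 : ℝ) < Real.sqrt 3 := by
    apply Real.lt_sqrt_of_sq_lt
    norm_num
  have hsup : limsup (fun n : ℕ => ((((f n : ℝ) - n) / Real.sqrt n : ℝ) : EReal)) atTop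
      ≤ ((1716 / 1000 : ℝ) : EReal) := by
    have h0 : Real.sqrt (2944 / 1000) ≤ 1716 / 1000 := by
      apply Real.sqrt_le_iff.mpr
      constructor <;> norm_num
    refine le_trans ?_ (EReal.coe_le_coe_iff.mpr h0)
    have h1 : Tendsto (fun n : ℕ =>
        (((Real.sqrt (2944 / 1000 * n + 9 / 4) + 3 / 2) / Real.sqrt (n : ℝ) : ℝ) : EReal)) atTop
        (𝓝 ((Real.sqrt (2944 / 1000) : ℝ) : EReal)) :=
      (continuous_coe_real_ereal.tendsto _).comp tendsto_aux
    rw [← h1.limsup_eq]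
    refine limsup_le_limsup ?_
    filter_upwards [eventually_ge_atTop 736000] with n hn
    rw [EReal.coe_le_coe_iff]
    apply div_le_div_of_nonneg_right _ (Real.sqrt_nonneg _)
    have := f_bound_sharp n hn
    linarith
  refine ⟨isGreatest_f, f_bound, f_bound_sharp, ?_, hsup, hlt⟩
  exact (liminf_le_limsup).trans (hsup.trans (EReal.coe_le_coe_iff.mpr hlt.le))

end Pool.Agent.Results.MP_2fc3d5_co.SqrtThree
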